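import Pool.Agent.Helper10.Qc.Stmts

set_option autoImplicit false

/-! Module UNI (qc_mods): the 24 units. -/

namespace Pool.Agent.Helper10.Qc

open Pool.Agent.Helper19.Qh Pool.Agent.Helper19.Qc

/-- integer coordinates, shifted by `2` -/
def uniT : Finset (Fin 5 × Fin 5 × Fin 5 × Fin 5) :=
  Finset.univ.filter (fun t => (t.1.val % 2 = t.2.1.val % 2 ∧ t.1.val % 2 = t.2.2.1.val % 2 ∧
    t.1.val % 2 = t.2.2.2.val % 2) ∧ ((t.1.val : ℤ) - 2) ^ 2 + ((t.2.1.val : ℤ) - 2) ^ 2 +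
    ((t.2.2.1.val : ℤ) - 2) ^ 2 + ((t.2.2.2.val : ℤ) - 2) ^ 2 = 4)

def uniX (t : Fin 5 × Fin 5 × Fin 5 × Fin 5) : Fin 4 → ℤ :=
  ![(t.1.val : ℤ) - 2, (t.2.1.val : ℤ) - 2, (t.2.2.1.val : ℤ) - 2, (t.2.2.2.val : ℤ) - 2]

theorem uni_card : uniT.card = 24 := by decide +kernel

theorem uni_norm (x : Fin 4 → ℤ) :
    ‖hf x‖ ^ 2 = ((x 0 ^ 2 + x 1 ^ 2 + x 2 ^ 2 + x 3 ^ 2 : ℤ) : ℝ) / 4 := by
  rw [q_norm_sq]
  simp only [hf]
  push_cast
  ring

theorem uni_norm_one (x : Fin 4 → ℤ) :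
    ‖hf x‖ = 1 ↔ x 0 ^ 2 + x 1 ^ 2 + x 2 ^ 2 + x 3 ^ 2 = 4 := by
  have h := uni_norm x
  constructor
  · intro h1
    rw [h1] at h
    have h2 : ((x 0 ^ 2 + x 1 ^ 2 + x 2 ^ 2 + x 3 ^ 2 : ℤ) : ℝ) = 4 := by linarith
    exact_mod_cast h2
  · intro h1
    rw [h1] at h
    have h2 : ‖hf x‖ ^ 2 = 1 := by
      rw [h]
      norm_num
    exact (pow_eq_one_iff_of_nonneg (norm_nonneg _) (by norm_num)).1 h2

theorem uni_inj : Function.Injective (fun t => hf (uniX t)) := by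
  rintro ⟨a, b, c, d⟩ ⟨a', b', c', d'⟩ h
  have h0 := congrArg (fun q : Q => q.re) h
  have h1 := congrArg (fun q : Q => q.imI) h
  have h2 := congrArg (fun q : Q => q.imJ) h
  have h3 := congrArg (fun q : Q => q.imK) h
  simp only [hf, uniX, Matrix.cons_val_zero, Matrix.cons_val_one, Matrix.cons_val] at h0 h1 h2 h3
  push_cast at h0 h1 h2 h3
  have e0 : (a.val : ℝ) = a'.val := by linarith
  have e1 : (b.val : ℝ) = b'.val := by linarith
  have e2 : (c.val : ℝ) = c'.val := by linarith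
  have e3 : (d.val : ℝ) = d'.val := by linarith
  have f0 : a = a' := Fin.ext (by exact_mod_cast e0)
  have f1 : b = b' := Fin.ext (by exact_mod_cast e1)
  have f2 : c = c' := Fin.ext (by exact_mod_cast e2)
  have f3 : d = d' := Fin.ext (by exact_mod_cast e3)
  rw [f0, f1, f2, f3]

theorem uni_bd {a b c d : ℤ} (h : a ^ 2 + b ^ 2 + c ^ 2 + d ^ 2 = 4) : -2 ≤ a ∧ a ≤ 2 := by
  constructor
  · nlinarith [sq_nonneg b, sq_nonneg c, sq_nonneg d]
  · nlinarith [sq_nonneg b, sq_nonneg c, sq_nonneg d]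

theorem uni_fin {a : ℤ} (h : -2 ≤ a ∧ a ≤ 2) : ∃ i : Fin 5, (i.val : ℤ) - 2 = a :=
  ⟨⟨(a + 2).toNat, by omega⟩, by show ((a + 2).toNat : ℤ) - 2 = a; omega⟩

theorem st_UNI (hHZ : ST_HZ) : ST_UNI := by
  classical
  refine ⟨uniT.image (fun t => hf (uniX t)), ?_, ?_⟩
  · rw [Finset.card_image_of_injective _ uni_inj, uni_card]
  · intro q
    rw [Finset.mem_image]
    constructor
    · rintro ⟨t, ht, rfl⟩
      obtain ⟨-, ⟨h1, h2, h3⟩, h4⟩ := Finset.mem_filter.1 ht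
      constructor
      · rw [hHZ]
        refine ⟨uniX t, ?_, ?_, ?_, rfl⟩
        · show (2 : ℤ) ∣ ((t.2.1.val : ℤ) - 2) - ((t.1.val : ℤ) - 2)
          omega
        · show (2 : ℤ) ∣ ((t.2.2.1.val : ℤ) - 2) - ((t.1.val : ℤ) - 2)
          omega
        · show (2 : ℤ) ∣ ((t.2.2.2.val : ℤ) - 2) - ((t.1.val : ℤ) - 2)
          omega
      · exact (uni_norm_one _).2 h4
    · rintro ⟨h1, h2⟩
      rw [hHZ] at h1
      obtain ⟨x, hx1, hx2, hx3, rfl⟩ := h1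
      have h3 := (uni_norm_one x).1 h2
      obtain ⟨i0, e0⟩ := uni_fin (uni_bd h3)
      obtain ⟨i1, e1⟩ := uni_fin (uni_bd (a := x 1) (b := x 0) (c := x 2) (d := x 3) (by linarith))
      obtain ⟨i2, e2⟩ := uni_fin (uni_bd (a := x 2) (b := x 0) (c := x 1) (d := x 3) (by linarith))
      obtain ⟨i3, e3⟩ := uni_fin (uni_bd (a := x 3) (b := x 0) (c := x 1) (d := x 2) (by linarith))
      refine ⟨(i0, i1, i2, i3), ?_, ?_⟩
      · refine Finset.mem_filter.2 ⟨Finset.mem_univ _, ⟨?_, ?_, ?_⟩, ?_⟩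
        · show i0.val % 2 = i1.val % 2
          omega
        · show i0.val % 2 = i2.val % 2
          omega
        · show i0.val % 2 = i3.val % 2
          omega
        · show ((i0.val : ℤ) - 2) ^ 2 + ((i1.val : ℤ) - 2) ^ 2 + ((i2.val : ℤ) - 2) ^ 2 +
            ((i3.val : ℤ) - 2) ^ 2 = 4
          rw [e0, e1, e2, e3]
          exact h3
      · show hf (uniX (i0, i1, i2, i3)) = hf x
        refine congrArg hf ?_
        funext j
        fin_cases j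
        · exact e0
        · exact e1
        · exact e2
        · exact e3

end Pool.Agent.Helper10.Qc
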